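import Pool.Agent.Helper87.P3.Final

set_option autoImplicit false

open Finset Pool.Agent.Helper87.P3

/-- Three agents: every instance with three agents whose valuations (real-valued on the subsets of
a finite set of items) are binary-marginal and MMS-feasible has a PMMS allocation. -/
theorem Pool.Agent.Results.MP_a38173_lc.ThreeAgents.result
    {M : Type} [Fintype M] [DecidableEq M] (v : Fin 3 → Finset M → ℝ)
    (h0 : ∀ i, v i ∅ = 0)
    (hbin : ∀ i (S : Finset M), ∀ g ∉ S,
      v i (insert g S) - v i S = 0 ∨ v i (insert g S) - v i S = 1)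
    (hfeas : ∀ i (A A' B B' : Finset M), Disjoint A A' → Disjoint B B' → A ∪ A' = B ∪ B' →
      min (v i A) (v i A') ≤ max (v i B) (v i B')) :
    ∃ X : Fin 3 → Finset M,
      (∀ i j, i ≠ j → Disjoint (X i) (X j)) ∧ (∀ g, ∃ i, g ∈ X i) ∧
      ∀ i j, i ≠ j → ∀ A A' : Finset M, Disjoint A A' → A ∪ A' = X i ∪ X j →
        min (v i A) (v i A') ≤ v i (X i) := by
  classical
  have hex : ∀ i (S : Finset M), ∃ k : ℕ, v i S = (k : ℝ) := by
    intro i S
    induction S using Finset.induction_on with
    | empty => exact ⟨0, by simp [h0]⟩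
    | insert a S ha ih =>
      obtain ⟨k, hk⟩ := ih
      rcases hbin i S a ha with h | h
      · exact ⟨k, by rw [← hk]; linarith⟩
      · exact ⟨k + 1, by push_cast; rw [← hk]; linarith⟩
  choose r hr using hex
  have hins : ∀ i (S : Finset M) (g : M), r i S ≤ r i (insert g S) ∧
      r i (insert g S) ≤ r i S + 1 := by
    intro i S g
    by_cases hg : g ∈ S
    · rw [insert_eq_self.2 hg]; exact ⟨le_rfl, Nat.le_succ _⟩
    · have h1 := hr i S
      have h2 := hr i (insert g S)
      rcases hbin i S g hg with h | h
      · have : (r i (insert g S) : ℝ) = r i S := by rw [← h1, ← h2]; linarith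
        have : r i (insert g S) = r i S := by exact_mod_cast this
        omega
      · have : (r i (insert g S) : ℝ) = r i S + 1 := by rw [← h1, ← h2]; linarith
        have : r i (insert g S) = r i S + 1 := by exact_mod_cast this
        omega
  have hmono : ∀ i (A B : Finset M), A ⊆ B → r i A ≤ r i B := by
    intro i A B hAB
    have key : ∀ D : Finset M, r i A ≤ r i (A ∪ D) := by
      intro D
      induction D using Finset.induction_on with
      | empty => simp
      | insert a D _ ih =>
        have : A ∪ insert a D = insert a (A ∪ D) := by rw [union_insert]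
        rw [this]
        exact ih.trans (hins i _ a).1
    have h1 := key B
    rwa [union_eq_right.2 hAB] at h1
  let I : Inst M (Fin 3) :=
    { v := r
      v0 := fun i => by
        have := hr i ∅
        rw [h0] at this
        exact_mod_cast this.symm
      mono := hmono
      unit := fun i A g => (hins i A g).2
      feas := by
        intro i A A' B B' hA hB hAB
        have := hfeas i A A' B B' hA hB hAB
        rw [hr, hr, hr, hr] at this
        exact_mod_cast this }
  obtain ⟨a, b, c, A, B, C, h3, hd, hu, q1, q2, q3, q4, q5, q6⟩ := good_exists I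
  have hval : ∀ (i : Fin 3) (P P' S : Finset M), min (r i P) (r i P') ≤ r i S →
      min (v i P) (v i P') ≤ v i S := by
    intro i P P' S h
    rw [hr, hr, hr]
    exact_mod_cast h
  refine ⟨fun i => if i = a then A else if i = b then B else C, ?_, ?_, ?_⟩
  · intro i j hij
    have hba : b ≠ a := h3.1.symm
    have hca : c ≠ a := h3.2.2.1.symm
    have hcb : c ≠ b := h3.2.1.symm
    rcases h3.2.2.2 i with rfl | rfl | rfl <;> rcases h3.2.2.2 j with rfl | rfl | rfl <;>
      simp only [if_true, if_neg hba, if_neg hca, if_neg hcb, if_pos] <;>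
      first
        | exact absurd rfl hij
        | exact hd.1
        | exact hd.2.1
        | exact hd.2.2
        | exact hd.1.symm
        | exact hd.2.1.symm
        | exact hd.2.2.symm
  · intro g
    have hba : b ≠ a := h3.1.symm
    have hca : c ≠ a := h3.2.2.1.symm
    have hcb : c ≠ b := h3.2.1.symm
    have hg : g ∈ A ∪ B ∪ C := by rw [hu]; exact mem_univ _
    rw [mem_union, mem_union] at hg
    rcases hg with (hg | hg) | hg
    · exact ⟨a, by simpa using hg⟩
    · exact ⟨b, by simpa [hba] using hg⟩
    · exact ⟨c, by simpa [hca, hcb] using hg⟩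
  · intro i j hij P P' hP hPP
    have hba : b ≠ a := h3.1.symm
    have hca : c ≠ a := h3.2.2.1.symm
    have hcb : c ≠ b := h3.2.1.symm
    rcases h3.2.2.2 i with rfl | rfl | rfl <;> rcases h3.2.2.2 j with rfl | rfl | rfl <;>
      simp only [if_true, if_neg hba, if_neg hca, if_neg hcb, if_pos] at hPP ⊢
    · exact absurd rfl hij
    · exact hval _ _ _ _ (q1 P P' hP hPP)
    · exact hval _ _ _ _ (q2 P P' hP hPP)
    · exact hval _ _ _ _ (q3 P P' hP (by rw [hPP, union_comm]))
    · exact absurd rfl hij
    · exact hval _ _ _ _ (q4 P P' hP hPP)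
    · exact hval _ _ _ _ (q5 P P' hP (by rw [hPP, union_comm]))
    · exact hval _ _ _ _ (q6 P P' hP (by rw [hPP, union_comm]))
    · exact absurd rfl hij
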